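import Pool.Agent.Y413.PM.Stm

/-!
# PM-SPLIT: splitting a set with many inner edges (helper550)
-/

set_option autoImplicit false

namespace Y550.PM

open Finset Y413.PM

theorem t_SPLIT : Y413.PM.S_SPLIT := by
  intro V _ _ E hE S u v a b hu hv h
  classical
  let I : Finset (Sym2 V) := E.filter fun e => hit S e ∧ ¬ hit Sᶜ e
  have hI : ∀ e ∈ I, e ∈ E ∧ ∀ x ∈ e, x ∈ S := by
    intro e he
    obtain ⟨h1, h2, h3⟩ := mem_filter.1 he
    refine ⟨h1, fun x hx => ?_⟩
    by_contra hxS
    exact h3 ⟨x, mem_compl.2 hxS, hx⟩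
  have hIc : a + b + 1 ≤ I.card := by
    have h1 := Finset.card_filter_add_card_filter_not (s := E.filter fun e => hit S e)
      (fun e => hit Sᶜ e)
    rw [filter_filter, filter_filter] at h1
    have h2 : (E.filter fun e => hit S e ∧ hit Sᶜ e).card = cr E S Sᶜ := rfl
    have h3 : (E.filter fun e => hit S e ∧ ¬ hit Sᶜ e).card = I.card := rfl
    have h4 : (E.filter fun e => hit S e).card = M E S := rfl
    omega
  have hIS : I.filter (fun e => hit S e) = I :=
    filter_true_of_mem fun e he => (mem_filter.1 he).2.1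
  obtain ⟨Q, hQ, hmin⟩ := exists_min_image
    (S.powerset.filter fun Q => a + 1 ≤ (I.filter fun e => hit Q e).card) Finset.card
    ⟨S, mem_filter.2 ⟨mem_powerset.2 subset_rfl, by rw [hIS]; omega⟩⟩
  obtain ⟨hQS, hQa⟩ := mem_filter.1 hQ
  rw [mem_powerset] at hQS
  have hQne : Q.Nonempty := by
    rw [nonempty_iff_ne_empty]
    rintro rfl
    have h1 : (I.filter fun e => hit (∅ : Finset V) e) = ∅ := by
      refine filter_false_of_mem fun e _ => ?_
      rintro ⟨x, hx, -⟩
      exact notMem_empty x hx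
    rw [h1, card_empty] at hQa
    omega
  obtain ⟨w, hw⟩ := hQne
  have hera : (I.filter fun e => hit (Q.erase w) e).card ≤ a := by
    by_contra hcon
    have h1 := hmin (Q.erase w) (mem_filter.2 ⟨mem_powerset.2 ((erase_subset _ _).trans hQS),
      by omega⟩)
    have h2 := card_erase_lt_of_mem hw
    omega
  have hnot : (I.filter fun e => ¬ hit (S \ Q) e).card ≤ a := by
    refine le_trans (card_le_card fun e he => ?_) hera
    obtain ⟨he1, he2⟩ := mem_filter.1 he
    refine mem_filter.2 ⟨he1, ?_⟩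
    obtain ⟨h1, h2⟩ := hI e he1
    have h3 : ∀ x ∈ e, x ∈ Q := by
      intro x hx
      by_contra hxQ
      exact he2 ⟨x, mem_sdiff.2 ⟨h2 x hx, hxQ⟩, hx⟩
    have h4 := hE e h1
    induction e using Sym2.ind with
    | _ x y =>
      rw [Sym2.mk_isDiag_iff] at h4
      by_cases hxw : x = w
      · refine ⟨y, mem_erase.2 ⟨fun hyw => h4 (hxw.trans hyw.symm), h3 y (Sym2.mem_mk_right x y)⟩,
          Sym2.mem_mk_right x y⟩
      · exact ⟨x, mem_erase.2 ⟨hxw, h3 x (Sym2.mem_mk_left x y)⟩, Sym2.mem_mk_left x y⟩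
  have hyes : b + 1 ≤ (I.filter fun e => hit (S \ Q) e).card := by
    have h1 := Finset.card_filter_add_card_filter_not (s := I) (fun e => hit (S \ Q) e)
    omega
  have key : ∀ (z : V) (T : Finset V), z ∉ S → T ⊆ S →
      M E {z} + (I.filter fun e => hit T e).card ≤ M E (insert z T) := by
    intro z T hz hT
    have hd : Disjoint (E.filter fun e => hit ({z} : Finset V) e) (I.filter fun e => hit T e) := by
      rw [Finset.disjoint_left]
      intro e he1 he2
      obtain ⟨x, hx, hxe⟩ := (mem_filter.1 he1).2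
      rw [mem_singleton] at hx
      subst hx
      exact hz ((hI e (mem_filter.1 he2).1).2 x hxe)
    have h1 : M E {z} = (E.filter fun e => hit ({z} : Finset V) e).card := rfl
    have h2 : M E (insert z T) = (E.filter fun e => hit (insert z T) e).card := rfl
    rw [h1, h2, ← card_union_of_disjoint hd]
    refine card_le_card fun e he => ?_
    rcases mem_union.1 he with h3 | h3
    · obtain ⟨h4, x, hx, hxe⟩ := mem_filter.1 h3
      rw [mem_singleton] at hx
      subst hx
      exact mem_filter.2 ⟨h4, x, mem_insert_self _ _, hxe⟩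
    · obtain ⟨h4, x, hx, hxe⟩ := mem_filter.1 h3
      exact mem_filter.2 ⟨(hI e h4).1, x, mem_insert_of_mem hx, hxe⟩
  have k1 := key u Q hu hQS
  have k2 := key v (S \ Q) hv sdiff_subset
  exact ⟨Q, hQS, by omega, by omega⟩
end Y550.PM
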